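import Pool.Agent.Helper82_NIB.Stmts

/-!
# NIB, modules ENG and AQ2: the energy
-/

set_option autoImplicit false

open Finset Matrix

namespace Pool.Agent.NIB.H41

open Pool.Agent.NIB

section

variable {W : Type} [Fintype W] [DecidableEq W]

lemma sum_row_sq {A : Matrix W W ℝ} (hA : IsSub A) (f : W → ℝ) :
    ∑ a, ∑ b, A a b * f a ^ 2 ≤ nsq f := by
  unfold nsq
  refine Finset.sum_le_sum fun a _ => ?_
  rw [← Finset.sum_mul]
  exact mul_le_of_le_one_left (sq_nonneg _) (hA.row a)

lemma sum_col_sq {A : Matrix W W ℝ} (hA : IsSub A) (f : W → ℝ) :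
    ∑ a, ∑ b, A a b * f b ^ 2 = ∑ a, ∑ b, A a b * f a ^ 2 := by
  rw [Finset.sum_comm]
  refine Finset.sum_congr rfl fun a _ => Finset.sum_congr rfl fun b _ => ?_
  rw [hA.symm b a]

theorem eng : EngStmt := by
  intro W _ _ A hA
  have h0 : ∀ f, 0 ≤ En A f := by
    intro f
    unfold En
    refine mul_nonneg (by norm_num) (Finset.sum_nonneg fun a _ => Finset.sum_nonneg fun b _ => ?_)
    exact mul_nonneg (hA.nonneg a b) (sq_nonneg _)
  have hmono : ∀ (f : W → ℝ) (F : W → W → ℝ), (∀ a b, (f a - f b) ^ 2 ≤ F a b) →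
      En A f ≤ 1 / 2 * ∑ a, ∑ b, A a b * F a b := by
    intro f F hF
    unfold En
    refine mul_le_mul_of_nonneg_left ?_ (by norm_num)
    exact Finset.sum_le_sum fun a _ => Finset.sum_le_sum fun b _ =>
      mul_le_mul_of_nonneg_left (hF a b) (hA.nonneg a b)
  refine ⟨h0, ?_, ?_, ?_, ?_, ?_, ?_⟩
  · -- `E(f) ≤ ⟨f, (1 - A) f⟩`
    intro f
    have h1 : En A f = 1 / 2 * (∑ a, ∑ b, A a b * f a ^ 2) + 1 / 2 * (∑ a, ∑ b, A a b * f b ^ 2) -
        ∑ a, ∑ b, A a b * (f a * f b) := by
      unfold En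
      have h2 : ∀ a b, A a b * (f a - f b) ^ 2 =
          A a b * f a ^ 2 + A a b * f b ^ 2 - 2 * (A a b * (f a * f b)) := by
        intro a b
        ring
      simp only [h2, Finset.sum_sub_distrib, Finset.sum_add_distrib, ← Finset.mul_sum]
      ring
    have h3 : f ⬝ᵥ (f - A *ᵥ f) = nsq f - ∑ a, ∑ b, A a b * (f a * f b) := by
      have h4 : f ⬝ᵥ (f - A *ᵥ f) = f ⬝ᵥ f - f ⬝ᵥ (A *ᵥ f) := dotProduct_sub _ _ _
      have h5 : f ⬝ᵥ f = nsq f := by
        unfold nsq dotProduct
        exact Finset.sum_congr rfl fun a _ => by ring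
      have h6 : f ⬝ᵥ (A *ᵥ f) = ∑ a, ∑ b, A a b * (f a * f b) := by
        unfold dotProduct
        refine Finset.sum_congr rfl fun a _ => ?_
        change f a * ∑ b, A a b * f b = _
        rw [Finset.mul_sum]
        exact Finset.sum_congr rfl fun b _ => by ring
      rw [h4, h5, h6]
    rw [h1, h3, sum_col_sq hA]
    have := sum_row_sq hA f
    linarith
  · -- `E(f) ≤ 2 |f|²`
    intro f
    have h1 := hmono f (fun a b => 2 * f a ^ 2 + 2 * f b ^ 2) (fun a b => by
      nlinarith [sq_nonneg (f a + f b)])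
    have h2 : ∑ a, ∑ b, A a b * (2 * f a ^ 2 + 2 * f b ^ 2) =
        2 * (∑ a, ∑ b, A a b * f a ^ 2) + 2 * ∑ a, ∑ b, A a b * f b ^ 2 := by
      simp only [mul_add, Finset.sum_add_distrib, Finset.mul_sum]
      congr 1
      · exact Finset.sum_congr rfl fun a _ => Finset.sum_congr rfl fun b _ => by ring
      · exact Finset.sum_congr rfl fun a _ => Finset.sum_congr rfl fun b _ => by ring
    rw [h2, sum_col_sq hA] at h1
    have := sum_row_sq hA f
    linarith
  · intro f g
    have h1 := hmono (f + g) (fun a b => 2 * (f a - f b) ^ 2 + 2 * (g a - g b) ^ 2) (fun a b => by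
      simp only [Pi.add_apply]
      nlinarith [sq_nonneg ((f a - f b) - (g a - g b))])
    have h2 : 1 / 2 * ∑ a, ∑ b, A a b * (2 * (f a - f b) ^ 2 + 2 * (g a - g b) ^ 2) =
        2 * En A f + 2 * En A g := by
      unfold En
      simp only [mul_add, Finset.sum_add_distrib, Finset.mul_sum]
      congr 1
      · exact Finset.sum_congr rfl fun a _ => Finset.sum_congr rfl fun b _ => by ring
      · exact Finset.sum_congr rfl fun a _ => Finset.sum_congr rfl fun b _ => by ring
    rw [h2] at h1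
    exact h1
  · intro f g h
    have h1 := hmono (f + g + h)
      (fun a b => 3 * (f a - f b) ^ 2 + 3 * (g a - g b) ^ 2 + 3 * (h a - h b) ^ 2) (fun a b => by
      simp only [Pi.add_apply]
      nlinarith [sq_nonneg ((f a - f b) - (g a - g b)), sq_nonneg ((f a - f b) - (h a - h b)),
        sq_nonneg ((g a - g b) - (h a - h b))])
    have h2 : 1 / 2 * ∑ a, ∑ b, A a b * (3 * (f a - f b) ^ 2 + 3 * (g a - g b) ^ 2 +
        3 * (h a - h b) ^ 2) = 3 * (En A f + En A g + En A h) := by
      unfold En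
      simp only [mul_add, Finset.sum_add_distrib, Finset.mul_sum]
      congr 1
      · congr 1
        · exact Finset.sum_congr rfl fun a _ => Finset.sum_congr rfl fun b _ => by ring
        · exact Finset.sum_congr rfl fun a _ => Finset.sum_congr rfl fun b _ => by ring
      · exact Finset.sum_congr rfl fun a _ => Finset.sum_congr rfl fun b _ => by ring
    rw [h2] at h1
    exact h1
  · intro f
    unfold En
    congr 1
    refine Finset.sum_congr rfl fun a _ => Finset.sum_congr rfl fun b _ => ?_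
    simp only [Pi.neg_apply]
    ring
  · intro w de hde
    have h1 : ∀ z, (A *ᵥ dl w) z = A z w := by
      intro z
      unfold dl
      rw [Matrix.mulVec_single_one]
      rfl
    have hde0 : 0 ≤ de := (hA.nonneg w w).trans (hde w w)
    unfold nsq
    calc ∑ z, (A *ᵥ dl w) z ^ 2 = ∑ z, A z w ^ 2 :=
          Finset.sum_congr rfl fun z _ => by rw [h1]
      _ ≤ ∑ z, de * A w z := by
          refine Finset.sum_le_sum fun z _ => ?_
          rw [sq, hA.symm z w]
          exact mul_le_mul_of_nonneg_right (hde w z) (hA.nonneg w z)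
      _ = de * ∑ z, A w z := by rw [Finset.mul_sum]
      _ ≤ de * 1 := mul_le_mul_of_nonneg_left (hA.row w) hde0
      _ = de := mul_one de

end

theorem aq2 (heng : EngStmt) (hegr : EgrStmt) : Aq2Stmt := by
  intro W _ _ A gh de eps ta Z hA hde hde0 heps hta hG w
  obtain ⟨h0, -, h2, h3, -, -, -⟩ := heng W A hA
  have h4 := hegr W A de ta hA hde hta w
  have h5 : A *ᵥ gh w = A *ᵥ (grn A ta *ᵥ dl w) + A *ᵥ (gh w - grn A ta *ᵥ dl w) := by
    rw [← Matrix.mulVec_add]
    congr 1
    abel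
  rw [h5]
  have h6 := h3 (A *ᵥ (grn A ta *ᵥ dl w)) (A *ᵥ (gh w - grn A ta *ᵥ dl w))
  have h7 := h2 (A *ᵥ (gh w - grn A ta *ᵥ dl w))
  have h8 := hG.gh2 w
  calc _ ≤ 2 * En A (A *ᵥ (grn A ta *ᵥ dl w)) + 2 * En A (A *ᵥ (gh w - grn A ta *ᵥ dl w)) := h6
    _ ≤ 2 * (de * ta / 2) + 2 * (2 * (eps * de)) := by linarith
    _ = de * (ta + 4 * eps) := by ring

end Pool.Agent.NIB.H41
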