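import Pool.Agent.Helper82_NIB.Stmts

/-!
# NIB, module LINF: a matching-like relation with a rank function is a linear forest
-/

set_option autoImplicit false

open Finset Matrix

namespace Pool.Agent.NIB.H41

open Pool.Agent.NIB Pool.Agent.Helper14_LA

theorem linf : LinfStmt := by
  intro V _ M rk F hF hout hinn hrk
  constructor
  · intro v c hc
    classical
    obtain ⟨w, hw, hmax⟩ := Finset.exists_max_image c.support.toFinset rk
      ⟨v, by simp⟩
    rw [List.mem_toFinset] at hw
    have hmax' : ∀ x ∈ c.support, rk x ≤ rk w := fun x hx => hmax x (List.mem_toFinset.2 hx)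
    have hc' := hc.rotate hw
    set c' := c.rotate w hw with hc'def
    have hnil : ¬ c'.Nil := hc'.not_nil
    have hsup : ∀ x ∈ c'.support, x ∈ c.support := by
      intro x hx
      exact (SimpleGraph.Walk.mem_support_rotate_iff c w hw).1 hx
    have hin : ∀ x, F.Adj w x → x ∈ c'.support → M x w := by
      intro x hx hxs
      rcases (hF w x).1 hx with h | h
      · have h1 := hrk w x h
        have h2 := hmax' x (hsup x hxs)
        omega
      · exact h
    have h1 := hin _ (c'.adj_snd hnil) (c'.getVert_mem_support _)
    have h2 := hin _ (c'.adj_penultimate hnil).symm (c'.getVert_mem_support _)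
    exact hc'.snd_ne_penultimate (hinn _ _ _ h1 h2)
  · intro v
    have hsub : F.neighborSet v ⊆ {w | M v w} ∪ {w | M w v} := by
      intro w hw
      exact (hF v w).1 hw
    have h1 : ({w | M v w} : Set V).ncard ≤ 1 := by
      rw [Set.ncard_le_one (Set.toFinite _)]
      intro a ha b hb
      exact hout v a b ha hb
    have h2 : ({w | M w v} : Set V).ncard ≤ 1 := by
      rw [Set.ncard_le_one (Set.toFinite _)]
      intro a ha b hb
      exact hinn a b v ha hb
    calc (F.neighborSet v).ncard ≤ ({w | M v w} ∪ {w | M w v} : Set V).ncard :=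
          Set.ncard_le_ncard hsub (Set.toFinite _)
      _ ≤ ({w | M v w} : Set V).ncard + ({w | M w v} : Set V).ncard := Set.ncard_union_le _ _
      _ ≤ 2 := by omega

end Pool.Agent.NIB.H41
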