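import Pool.Agent.Helper82_NIB.Stmts

/-!
# NIB, module NH: the number of holes
-/

set_option autoImplicit false

open Finset Matrix

namespace Pool.Agent.NIB.H41

open Pool.Agent.NIB

theorem nh : NhStmt := by
  refine ⟨2000, ?_⟩
  intro N hN D de r h hR
  have hn : (2000 : ℝ) ≤ (N : ℝ) := by exact_mod_cast hN
  set n : ℝ := (N : ℝ) with hndef
  have hn0 : 0 < n := by linarith
  have hD0 : n ^ 234 ≤ D := hR.D0
  have hDpos : 0 < D := lt_of_lt_of_le (by positivity) hD0
  have hh : n ^ 74 / 2 ≤ h := hR.h0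
  have hhpos : 0 < h := lt_of_lt_of_le (by positivity) hh
  -- the bound for `2 r + de`
  have hr : r ≤ 200 / n ^ 2 := by
    refine hR.r1.trans ?_
    rw [div_le_div_iff₀ hDpos (by positivity)]
    calc 200 * n ^ 232 * n ^ 2 = 200 * n ^ 234 := by ring
      _ ≤ 200 * D := by linarith
  have hde : de ≤ 1 / n ^ 2 := by
    refine hR.de1.trans ?_
    rw [div_le_div_iff₀ hDpos (by positivity)]
    have h1 : 2 * n ^ 2 ≤ n ^ 234 := by
      have h2 : (2 : ℝ) ≤ n ^ 232 := by
        calc (2 : ℝ) ≤ n := by linarith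
          _ = n ^ 1 := (pow_one n).symm
          _ ≤ n ^ 232 := pow_le_pow_right₀ (by linarith) (by norm_num)
      calc 2 * n ^ 2 ≤ n ^ 232 * n ^ 2 := by gcongr
        _ = n ^ 234 := by ring
    linarith
  have h1 : 1 / n ^ 60 * h * (2 * r + de) ≤ h * (401 / n ^ 62) := by
    calc 1 / n ^ 60 * h * (2 * r + de) ≤ 1 / n ^ 60 * h * (2 * (200 / n ^ 2) + 1 / n ^ 2) := by
          gcongr
      _ = h * (401 / n ^ 62) := by
          field_simp
          ring
  -- the square root
  have h2 : √(n ^ 2 * (1 / n ^ 60) * h) ≤ h * (1 / n ^ 64) := by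
    apply Real.sqrt_le_iff.2
    refine ⟨by positivity, ?_⟩
    have h3 : n ^ 70 ≤ h := by
      refine le_trans ?_ hh
      have : (2 : ℝ) ≤ n ^ 4 := by
        calc (2 : ℝ) ≤ n := by linarith
          _ = n ^ 1 := (pow_one n).symm
          _ ≤ n ^ 4 := pow_le_pow_right₀ (by linarith) (by norm_num)
      have h4 : 2 * n ^ 70 ≤ n ^ 74 := by
        calc 2 * n ^ 70 ≤ n ^ 4 * n ^ 70 := by gcongr
          _ = n ^ 74 := by ring
      linarith
    calc n ^ 2 * (1 / n ^ 60) * h = n ^ 70 * (h / n ^ 128) := by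
          field_simp
      _ ≤ h * (h / n ^ 128) := by gcongr
      _ = (h * (1 / n ^ 64)) ^ 2 := by
          field_simp
  have h5 : 8 * n ^ 2 ≤ h * (1 / n ^ 64) := by
    have h6 : 16 * n ^ 66 ≤ n ^ 74 := by
      have : (16 : ℝ) ≤ n ^ 8 := by
        calc (16 : ℝ) ≤ n := by linarith
          _ = n ^ 1 := (pow_one n).symm
          _ ≤ n ^ 8 := pow_le_pow_right₀ (by linarith) (by norm_num)
      calc 16 * n ^ 66 ≤ n ^ 8 * n ^ 66 := by gcongr
        _ = n ^ 74 := by ring
    have h7 : 8 * n ^ 66 ≤ h := by linarith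
    calc 8 * n ^ 2 = 8 * n ^ 66 * (1 / n ^ 64) := by
          field_simp
      _ ≤ h * (1 / n ^ 64) := by gcongr
  have h8 : h * (1 / n ^ 64) ≤ h * (1 / n ^ 62) := by
    apply mul_le_mul_of_nonneg_left _ hhpos.le
    apply one_div_le_one_div_of_le (by positivity)
    exact pow_le_pow_right₀ (by linarith) (by norm_num)
  -- the right side
  have h9 : h * (500 / n ^ 62) ≤ (1 - 1 / n ^ 60) * h * (1 / (2 * n ^ 61)) := by
    have h10 : 1 / n ^ 60 ≤ 1 / 2 := by
      apply one_div_le_one_div_of_le (by norm_num)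
      calc (2 : ℝ) ≤ n := by linarith
        _ = n ^ 1 := (pow_one n).symm
        _ ≤ n ^ 60 := pow_le_pow_right₀ (by linarith) (by norm_num)
    have h11 : 500 / n ^ 62 ≤ 1 / 2 * (1 / (2 * n ^ 61)) := by
      have : 1 / 2 * (1 / (2 * n ^ 61)) = n / 4 / n ^ 62 := by
        field_simp
        ring
      rw [this]
      apply div_le_div_of_nonneg_right _ (by positivity)
      linarith
    calc h * (500 / n ^ 62) ≤ h * (1 / 2 * (1 / (2 * n ^ 61))) := by gcongr
      _ = 1 / 2 * h * (1 / (2 * n ^ 61)) := by ring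
      _ ≤ (1 - 1 / n ^ 60) * h * (1 / (2 * n ^ 61)) := by
          gcongr
          linarith
  have h12 : (1 - 1 / n ^ 60) * h * (1 + 1 / (2 * n ^ 61)) =
      (1 - 1 / n ^ 60) * h + (1 - 1 / n ^ 60) * h * (1 / (2 * n ^ 61)) := by ring
  have h13 : h * (500 / n ^ 62) = h * (401 / n ^ 62) + h * (99 * (1 / n ^ 62)) := by
    ring
  have h14 : h * (99 * (1 / n ^ 62)) = 99 * (h * (1 / n ^ 62)) := by ring
  have h15 : 0 ≤ h * (1 / n ^ 62) := by positivity
  rw [h12]
  linarith

end Pool.Agent.NIB.H41
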