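import Pool.Agent.Helper82_NIB.Stmts

/-!
# NIB, module NTIM: the number of bites
-/

set_option autoImplicit false

open Finset Matrix

namespace Pool.Agent.NIB.H41

open Pool.Agent.NIB

theorem ntim : NtimStmt := by
  -- `2 N ^ 480 e ^ (-N) ≤ N ^ 234` for large `N`
  have hlim := Real.tendsto_pow_mul_exp_neg_atTop_nhds_zero 246
  have hev : ∀ᶠ x : ℝ in Filter.atTop, x ^ 246 * Real.exp (-x) ≤ 1 / 2 :=
    (hlim.eventually (gt_mem_nhds (by norm_num : (0 : ℝ) < 1 / 2))).mono fun x hx => hx.le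
  have hev2 := (tendsto_natCast_atTop_atTop (R := ℝ)).eventually hev
  obtain ⟨N0, hN0⟩ := Filter.eventually_atTop.1 hev2
  refine ⟨max N0 2, ?_⟩
  intro N hN K hK1 hK2
  have hN2 : 2 ≤ N := (le_max_right _ _).trans hN
  have hexp := hN0 N ((le_max_left _ _).trans hN)
  have hn2 : (2 : ℝ) ≤ (N : ℝ) := by exact_mod_cast hN2
  have hn0 : (0 : ℝ) < (N : ℝ) := by linarith
  have hth1 : 1 / (N : ℝ) ^ 60 ≤ 1 := by
    rw [div_le_one (by positivity)]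
    exact one_le_pow₀ (by linarith)
  have hbase : 0 ≤ 1 - 1 / (N : ℝ) ^ 60 := by linarith
  -- the power
  have hpow : (1 - 1 / (N : ℝ) ^ 60) ^ (N ^ 61) ≤ Real.exp (-(N : ℝ)) := by
    have h1 : 1 - 1 / (N : ℝ) ^ 60 ≤ Real.exp (-(1 / (N : ℝ) ^ 60)) := by
      have := Real.add_one_le_exp (-(1 / (N : ℝ) ^ 60))
      linarith
    calc (1 - 1 / (N : ℝ) ^ 60) ^ (N ^ 61) ≤ Real.exp (-(1 / (N : ℝ) ^ 60)) ^ (N ^ 61) :=
          pow_le_pow_left₀ hbase h1 _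
      _ = Real.exp ((N ^ 61 : ℕ) * (-(1 / (N : ℝ) ^ 60))) := by rw [Real.exp_nat_mul]
      _ = Real.exp (-(N : ℝ)) := by
          congr 1
          push_cast
          field_simp
  have hKR : (K : ℝ) ≤ 2 * (N : ℝ) ^ 480 := by exact_mod_cast hK2
  have hex : (K : ℝ) * (1 - 1 / (N : ℝ) ^ 60) ^ (N ^ 61) ≤ (N : ℝ) ^ 234 := by
    calc (K : ℝ) * (1 - 1 / (N : ℝ) ^ 60) ^ (N ^ 61)
        ≤ (2 * (N : ℝ) ^ 480) * Real.exp (-(N : ℝ)) := by gcongr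
      _ = 2 * (N : ℝ) ^ 234 * ((N : ℝ) ^ 246 * Real.exp (-(N : ℝ))) := by ring
      _ ≤ 2 * (N : ℝ) ^ 234 * (1 / 2) := by gcongr
      _ = (N : ℝ) ^ 234 := by ring
  classical
  have hexist : ∃ T : ℕ, (K : ℝ) * (1 - 1 / (N : ℝ) ^ 60) ^ T ≤ (N : ℝ) ^ 234 := ⟨_, hex⟩
  refine ⟨Nat.find hexist, Nat.find_min' hexist hex, Nat.find_spec hexist, ?_⟩
  intro t ht
  exact (not_le.1 (Nat.find_min hexist ht)).le

end Pool.Agent.NIB.H41
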