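import Pool.Agent.Helper82_NIB.Stmts

/-!
# NIB, module SVA3: sup of the influences
-/

set_option autoImplicit false

open Finset Matrix

namespace Pool.Agent.NIB.H41

open Pool.Agent.NIB

/-- Sum of the weights of arcs of a given tail. -/
lemma sum_tail {V : Type} [Fintype V] [DecidableEq V] (f : V × V → ℝ) (u : V) :
    ∑ a ∈ univ.filter (fun a : V × V => a.1 = u), f a = ∑ v, f (u, v) := by
  rw [Finset.sum_filter, Fintype.sum_prod_type]
  rw [Finset.sum_eq_single u]
  · exact Finset.sum_congr rfl fun v _ => by simp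
  · intro b _ hb
    exact Finset.sum_eq_zero fun v _ => by simp [hb]
  · intro h
    exact absurd (Finset.mem_univ u) h

/-- Sum of the weights of arcs of a given head. -/
lemma sum_head {V : Type} [Fintype V] [DecidableEq V] (f : V × V → ℝ) (v : V) :
    ∑ a ∈ univ.filter (fun a : V × V => a.2 = v), f a = ∑ u, f (u, v) := by
  rw [Finset.sum_filter, Fintype.sum_prod_type]
  refine Finset.sum_congr rfl fun u _ => ?_
  rw [Finset.sum_eq_single v]
  · simp
  · intro b _ hb
    simp [hb]
  · intro h
    exact absurd (Finset.mem_univ v) h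

theorem sva3 : Sva3Stmt := by
  intro V C _ _ _ _ b de Lam h M kap kp hb hM hkp i s
  have hq0 : ∀ c a, 0 ≤ b.q c a := fun c a =>
    mul_nonneg (mul_nonneg (by norm_num) hb.th0.le) (hb.x0 _ _ _)
  have hth : 8 * b.th ≤ 1 / 2 := by linarith [hb.th1]
  have hth0 : 0 ≤ 8 * b.th := by linarith [hb.th0]
  -- sums of `q`
  have hout : ∀ c u, ∑ a ∈ univ.filter (fun a : V × V => a.1 = u), b.q c a ≤ 1 / 2 := by
    intro c u
    rw [sum_tail]
    have h1 : ∑ v, b.q c (u, v) = 8 * b.th * rs (b.x c) (u, true) := by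
      rw [rs_out, Finset.mul_sum]
      rfl
    rw [h1]
    calc 8 * b.th * rs (b.x c) (u, true) ≤ 8 * b.th * 1 :=
          mul_le_mul_of_nonneg_left (hb.row _ _) hth0
      _ ≤ 1 / 2 := by linarith
  have hinn : ∀ c v, ∑ a ∈ univ.filter (fun a : V × V => a.2 = v), b.q c a ≤ 1 / 2 := by
    intro c v
    rw [sum_head]
    have h1 : ∑ u, b.q c (u, v) = 8 * b.th * rs (b.x c) (v, false) := by
      rw [rs_inn, Finset.mul_sum]
      rfl
    rw [h1]
    calc 8 * b.th * rs (b.x c) (v, false) ≤ 8 * b.th * 1 :=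
          mul_le_mul_of_nonneg_left (hb.row _ _) hth0
      _ ≤ 1 / 2 := by linarith
  have hMq : ∀ c (S : Finset (V × V)) (u v : V),
      (∀ a ∈ S, b.q c a ≠ 0 → a.1 = u ∨ a.2 = v) →
      ∑ a ∈ S, b.q c a * |kp c a.1 a.2| ≤ M := by
    intro c S u v hS
    have h1 : ∀ a ∈ S, b.q c a * |kp c a.1 a.2| ≤
        M * ((if a.1 = u then b.q c a else 0) + if a.2 = v then b.q c a else 0) := by
      intro a ha
      by_cases hz : b.q c a = 0
      · simp [hz]
      have h2 : b.q c a * |kp c a.1 a.2| ≤ M * b.q c a := by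
        rw [mul_comm M]
        exact mul_le_mul_of_nonneg_left (hkp _ _ _) (hq0 c a)
      have h3 : b.q c a ≤ (if a.1 = u then b.q c a else 0) + if a.2 = v then b.q c a else 0 := by
        have h4 := hq0 c a
        rcases hS a ha hz with h5 | h5
        · rw [if_pos h5]
          have : 0 ≤ if a.2 = v then b.q c a else 0 := by split_ifs <;> simp [h4]
          linarith
        · rw [if_pos h5]
          have : 0 ≤ if a.1 = u then b.q c a else 0 := by split_ifs <;> simp [h4]
          linarith
      exact h2.trans (mul_le_mul_of_nonneg_left h3 hM)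
    calc ∑ a ∈ S, b.q c a * |kp c a.1 a.2|
        ≤ ∑ a ∈ S, M * ((if a.1 = u then b.q c a else 0) + if a.2 = v then b.q c a else 0) :=
          Finset.sum_le_sum h1
      _ ≤ ∑ a, M * ((if a.1 = u then b.q c a else 0) + if a.2 = v then b.q c a else 0) := by
          refine Finset.sum_le_sum_of_subset_of_nonneg (Finset.subset_univ _) fun a _ _ => ?_
          have h4 := hq0 c a
          refine mul_nonneg hM (add_nonneg ?_ ?_) <;> split_ifs <;> simp [h4]
      _ = M * (∑ a ∈ univ.filter (fun a : V × V => a.1 = u), b.q c a +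
            ∑ a ∈ univ.filter (fun a : V × V => a.2 = v), b.q c a) := by
          rw [← Finset.mul_sum, Finset.sum_add_distrib, Finset.sum_filter, Finset.sum_filter]
      _ ≤ M * (1 / 2 + 1 / 2) :=
          mul_le_mul_of_nonneg_left (add_le_add (hout c u) (hinn c v)) hM
      _ = M := by ring
  rcases s with _ | ⟨c, bb⟩
  · have : b.ifc kp i none = 0 := by
      rcases i with a | p <;> rfl
    rw [this]
    linarith
  · rcases i with a0 | ⟨c0, s0⟩
    · change |kp c a0.1 a0.2| + ∑ a with a0 ∈ b.blk c a, b.q c a * |kp c a.1 a.2| ≤ 2 * M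
      have h1 := hkp c a0.1 a0.2
      have h2 := hMq c (univ.filter (fun a => a0 ∈ b.blk c a)) a0.1 a0.2 (by
        intro a ha _
        have h3 := (Finset.mem_filter.1 ha).2
        have h4 := (Finset.mem_filter.1 h3).2.2.1
        rcases h4 with h4 | h4
        · exact Or.inl h4.symm
        · exact Or.inr h4.symm)
      linarith
    · change ∑ a with b.x c0 a.1 a.2 ≠ 0 ∧ (b.st c0 a.1 = s0 ∨ a.2 = s0),
        b.q c0 a * |kp c0 a.1 a.2| ≤ 2 * M
      by_cases hex : ∃ u v, b.x c0 u v ≠ 0 ∧ b.st c0 u = s0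
      · obtain ⟨u0, v0, hx0, hs0⟩ := hex
        have h2 := hMq c0 (univ.filter (fun a : V × V => b.x c0 a.1 a.2 ≠ 0 ∧
            (b.st c0 a.1 = s0 ∨ a.2 = s0))) u0 s0 (by
          intro a ha _
          have h3 := (Finset.mem_filter.1 ha).2
          rcases h3.2 with h4 | h4
          · exact Or.inl (hb.stInj c0 a.1 u0 a.2 v0 h3.1 hx0 (h4.trans hs0.symm))
          · exact Or.inr h4)
        linarith
      · have h2 := hMq c0 (univ.filter (fun a : V × V => b.x c0 a.1 a.2 ≠ 0 ∧
            (b.st c0 a.1 = s0 ∨ a.2 = s0))) s0 s0 (by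
          intro a ha _
          have h3 := (Finset.mem_filter.1 ha).2
          rcases h3.2 with h4 | h4
          · exact absurd ⟨a.1, a.2, h3.1, h4⟩ hex
          · exact Or.inr h4)
        linarith

end Pool.Agent.NIB.H41
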